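import Pool.Agent.Helper15.HF.Star

/-!
# Hyperfiniteness by iterated star contraction
-/

set_option autoImplicit false

namespace Pool.Agent.Helper15.HF

open SimpleGraph Finset Pool.Agent.Helper36.BL
open scoped Classical

section

variable {V : Type} [Fintype V] (G : SimpleGraph V)

omit [Fintype V] in
/-- The union of a cluster and of clusters adjacent to it is connected. -/
lemma connected_merge {ι : Type} (f : V → ι) (hf : ∀ i, (G.induce {v | f v = i}).Connected)
    (g : ι → ι) (k : ι) (hk : g k = k) (hg : ∀ i, g i = k → i ≠ k → (quot G f).Adj i k) :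
    (G.induce {v | g (f v) = k}).Connected := by
  obtain ⟨⟨x0, hx0⟩⟩ := (hf k).nonempty
  have hx0' : f x0 = k := hx0
  have hsub : ∀ i, g i = k → {v | f v = i} ⊆ {v | g (f v) = k} := by
    intro i hi v hv
    have h1 : f v = i := hv
    change g (f v) = k
    rw [h1, hi]
  have hbase : g (f x0) = k := by rw [hx0', hk]
  have key : ∀ x (hx : g (f x) = k),
      (G.induce {v | g (f v) = k}).Reachable ⟨x, hx⟩ ⟨x0, hbase⟩ := by
    intro x hx
    by_cases h : f x = k
    · exact reach_mono G (hsub k hk) (x := x) (y := x0) h hx0' ((hf k).preconnected ⟨x, h⟩ ⟨x0, hx0'⟩)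
    · obtain ⟨_, u, v, huv, hu, hv⟩ := hg (f x) hx h
      have hxu := reach_mono G (hsub (f x) hx) (x := x) (y := u) rfl hu
        ((hf (f x)).preconnected ⟨x, rfl⟩ ⟨u, hu⟩)
      have hvx := reach_mono G (hsub k hk) (x := v) (y := x0) hv hx0'
        ((hf k).preconnected ⟨v, hv⟩ ⟨x0, hx0'⟩)
      have huv' : (G.induce {v | g (f v) = k}).Adj ⟨u, hsub _ hx hu⟩ ⟨v, hsub _ hk hv⟩ := huv
      exact (hxu.trans huv'.reachable).trans hvx
  exact { preconnected := fun a b => (key a.1 a.2).trans (key b.1 b.2).symm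
          nonempty := ⟨⟨x0, hbase⟩⟩ }

lemma card_merge {ι : Type} [Fintype ι] (f : V → ι) (s Δ : ℕ)
    (hs : ∀ i, (univ.filter fun v => f v = i).card ≤ s)
    (hΔ : ∀ v, (univ.filter fun u => G.Adj v u).card ≤ Δ)
    (g : ι → ι) (k : ι) (hg : ∀ i, g i = k → i ≠ k → (quot G f).Adj i k) :
    (univ.filter fun v => g (f v) = k).card ≤ s * (1 + Δ * s) := by
  set I : Finset ι := univ.filter fun i => g i = k with hI
  have h1 : (univ.filter fun v => g (f v) = k) ⊆ I.biUnion fun i => univ.filter fun v => f v = i := by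
    intro v hv
    rw [Finset.mem_filter] at hv
    rw [Finset.mem_biUnion]
    exact ⟨f v, by rw [hI, Finset.mem_filter]; exact ⟨mem_univ _, hv.2⟩,
      by rw [Finset.mem_filter]; exact ⟨mem_univ _, rfl⟩⟩
  have h2 : (I.biUnion fun i => univ.filter fun v => f v = i).card ≤ I.card * s :=
    Finset.card_biUnion_le_card_mul _ _ _ fun i _ => hs i
  set J : Finset V := (univ.filter fun v => f v = k).biUnion fun v => univ.filter fun u => G.Adj v u
    with hJ
  have h3 : J.card ≤ s * Δ := by
    refine (Finset.card_biUnion_le_card_mul _ _ Δ fun v _ => hΔ v).trans ?_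
    exact Nat.mul_le_mul_right _ (hs k)
  have h4 : I ⊆ insert k (J.image f) := by
    intro i hi
    rw [hI, Finset.mem_filter] at hi
    rw [Finset.mem_insert]
    by_cases hik : i = k
    · exact Or.inl hik
    · right
      obtain ⟨_, u, v, huv, hu, hv⟩ := hg i hi.2 hik
      rw [Finset.mem_image]
      refine ⟨u, ?_, hu⟩
      rw [hJ, Finset.mem_biUnion]
      exact ⟨v, by rw [Finset.mem_filter]; exact ⟨mem_univ _, hv⟩,
        by rw [Finset.mem_filter]; exact ⟨mem_univ _, huv.symm⟩⟩
  have h5 : I.card ≤ 1 + Δ * s := by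
    refine (Finset.card_le_card h4).trans ((Finset.card_insert_le _ _).trans ?_)
    have := (Finset.card_image_le (s := J) (f := f)).trans h3
    rw [Nat.mul_comm s Δ] at this
    omega
  calc (univ.filter fun v => g (f v) = k).card ≤ I.card * s := (Finset.card_le_card h1).trans h2
    _ ≤ (1 + Δ * s) * s := Nat.mul_le_mul_right _ h5
    _ = s * (1 + Δ * s) := Nat.mul_comm _ _

variable (w : V → V → ℝ)

/-- One round of star contraction. -/
theorem step {d Δ s : ℕ} (hd : 1 ≤ d) (hG : SparseMinors d G)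
    (hΔ : ∀ v, (univ.filter fun u => G.Adj v u).card ≤ Δ)
    (hw0 : ∀ u v, 0 ≤ w u v) (hws : ∀ u v, w u v = w v u)
    {ι : Type} [Fintype ι] (f : V → ι) (hf : ∀ i, (G.induce {v | f v = i}).Connected)
    (hs : ∀ i, (univ.filter fun v => f v = i).card ≤ s) :
    ∃ (ι' : Type) (_ : Fintype ι') (f' : V → ι'),
      (∀ i, (G.induce {v | f' v = i}).Connected) ∧
      (∀ i, (univ.filter fun v => f' v = i).card ≤ s * (1 + Δ * s)) ∧
      cut G w f' ≤ (1 - 1 / (16 * d)) * cut G w f := by
  have hmax : ∀ i : ι, ∃ j : ι, ∀ k, between G w f i k ≤ between G w f i j := by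
    intro i
    obtain ⟨j, _, hj⟩ := Finset.exists_max_image univ (fun k => between G w f i k)
      ⟨i, mem_univ i⟩
    exact ⟨j, fun k => hj k (mem_univ k)⟩
  choose j hj using hmax
  have hd' : (0 : ℝ) < d := by exact_mod_cast hd
  have hM : cut G w f ≤ 4 * d * ∑ i, between G w f i (j i) := by
    rw [cut_eq]
    have h1 := degen_sum (quot G f) (fun a b => between G w f a b)
      (fun i => between G w f i (j i)) (2 * d) (fun a b h => between_eq_zero G w f a b h)
      (fun a b => between_symm G w f hws a b) (fun a b => hj a b)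
      (fun a => between_nonneg G w f hw0 a (j a))
      (fun S hS => exists_low_degree G hG f hf S hS) univ
    refine h1.trans (le_of_eq ?_)
    push_cast
    ring
  obtain ⟨S, hS⟩ := exists_colour j (fun i => between G w f i (j i)) (by
    intro i hi
    refine between_eq_zero G w f _ _ ?_
    rw [hi]
    exact (quot G f).loopless.irrefl i)
  set g : ι → ι := fun i => if (i ∈ S ∧ j i ∉ S) ∧ (quot G f).Adj i (j i) then j i else i with hgdef
  have hgg : ∀ i, g (g i) = g i := by
    intro i
    by_cases h : (i ∈ S ∧ j i ∉ S) ∧ (quot G f).Adj i (j i)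
    · have h1 : g i = j i := by rw [hgdef]; simp only [if_pos h]
      have h2 : g (j i) = j i := by
        rw [hgdef]
        simp only
        rw [if_neg]
        rintro ⟨⟨h3, _⟩, _⟩
        exact h.1.2 h3
      rw [h1, h2]
    · have h1 : g i = i := by rw [hgdef]; simp only [if_neg h]
      rw [h1, h1]
  have hadj : ∀ i k, g i = k → i ≠ k → (quot G f).Adj i k := by
    intro i k hik hne
    by_cases h : (i ∈ S ∧ j i ∉ S) ∧ (quot G f).Adj i (j i)
    · have h1 : g i = j i := by rw [hgdef]; simp only [if_pos h]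
      rw [← hik, h1]
      exact h.2
    · have h1 : g i = i := by rw [hgdef]; simp only [if_neg h]
      exact absurd (h1.symm.trans hik) hne
  have hcut := cut_contract G w f hw0 g hgg
  have hsum : ∑ i, (if i ∈ S ∧ j i ∉ S then between G w f i (j i) else 0) ≤
      ∑ i, (if g i ≠ i then between G w f i (g i) else 0) := by
    refine Finset.sum_le_sum fun i _ => ?_
    have hnn : 0 ≤ (if g i ≠ i then between G w f i (g i) else 0) := by
      split_ifs
      · exact between_nonneg G w f hw0 _ _
      · exact le_rfl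
    by_cases h1 : i ∈ S ∧ j i ∉ S
    · rw [if_pos h1]
      by_cases h2 : (quot G f).Adj i (j i)
      · have h3 : g i = j i := by rw [hgdef]; simp only [if_pos (And.intro h1 h2)]
        rw [h3, if_pos h2.1.symm]
      · rw [between_eq_zero G w f _ _ h2]
        exact hnn
    · rw [if_neg h1]
      exact hnn
  refine ⟨{i : ι // g i = i}, inferInstance, fun v => ⟨g (f v), hgg _⟩, ?_, ?_, ?_⟩
  · rintro ⟨k, hk⟩
    have h1 : {v | (⟨g (f v), hgg _⟩ : {i : ι // g i = i}) = ⟨k, hk⟩} = {v | g (f v) = k} := by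
      ext v
      simp
    rw [h1]
    exact connected_merge G f hf g k hk fun i => hadj i k
  · rintro ⟨k, hk⟩
    refine (Finset.card_le_card (t := univ.filter fun v => g (f v) = k) fun v hv => ?_).trans
      (card_merge G f s Δ hs hΔ g k fun i => hadj i k)
    simp only [Finset.mem_filter, Finset.mem_univ, true_and, Subtype.mk.injEq] at hv ⊢
    exact hv
  · have h1 : cut G w (fun v => (⟨g (f v), hgg _⟩ : {i : ι // g i = i})) =
        cut G w (fun v => g (f v)) := by
      unfold cut
      refine Finset.sum_congr rfl fun u _ => Finset.sum_congr rfl fun v _ => ?_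
      simp
    rw [h1]
    have h2 : cut G w (fun v => g (f v)) ≤
        cut G w f - 1 / 4 * ∑ i, between G w f i (j i) := by linarith
    have h3 : cut G w f / (4 * d) ≤ ∑ i, between G w f i (j i) := by
      rw [div_le_iff₀ (by positivity)]
      linarith
    have h4 : (1 - 1 / (16 * d)) * cut G w f = cut G w f - 1 / 4 * (cut G w f / (4 * d)) := by
      field_simp
      ring
    rw [h4]
    linarith

end

/-- Rounds of star contraction. -/
theorem rounds (d Δ : ℕ) (hd : 1 ≤ d) (n : ℕ) : ∃ s : ℕ, ∀ (V : Type) [Fintype V]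
    (G : SimpleGraph V), SparseMinors d G → (∀ v, (univ.filter fun u => G.Adj v u).card ≤ Δ) →
    ∀ w : V → V → ℝ, (∀ u v, 0 ≤ w u v) → (∀ u v, w u v = w v u) →
    ∃ (ι : Type) (_ : Fintype ι) (f : V → ι),
      (∀ i, (G.induce {v | f v = i}).Connected) ∧
      (∀ i, (univ.filter fun v => f v = i).card ≤ s) ∧
      cut G w f ≤ (1 - 1 / (16 * d)) ^ n * total G w := by
  induction n with
  | zero =>
    refine ⟨1, fun V _ G _ _ w _ _ => ⟨V, inferInstance, fun v => v, ?_, ?_, ?_⟩⟩
    · intro i
      exact star_connected G {v | v = i} i rfl fun x hx hne => absurd hx hne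
    · intro i
      refine Finset.card_le_one.mpr ?_
      intro a ha b hb
      exact (Finset.mem_filter.mp ha).2.trans (Finset.mem_filter.mp hb).2.symm
    · rw [pow_zero, one_mul]
      unfold cut total
      refine Finset.sum_le_sum fun u _ => Finset.sum_le_sum fun v _ => le_of_eq ?_
      congr 1
      rw [eq_iff_iff]
      exact ⟨fun h => h.1, fun h => ⟨h, h.ne⟩⟩
  | succ n ih =>
    obtain ⟨s, hs⟩ := ih
    refine ⟨s * (1 + Δ * s), fun V _ G hG hΔ w hw0 hws => ?_⟩
    obtain ⟨ι, _, f, hf, hsz, hc⟩ := hs V G hG hΔ w hw0 hws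
    obtain ⟨ι', hι', f', hf', hsz', hc'⟩ := step G w hd hG hΔ hw0 hws f hf hsz
    refine ⟨ι', hι', f', hf', hsz', hc'.trans ?_⟩
    have hd' : (1 : ℝ) ≤ d := by exact_mod_cast hd
    have h1 : (0 : ℝ) ≤ 1 - 1 / (16 * d) := by
      have : (1 : ℝ) / (16 * d) ≤ 1 := by
        rw [div_le_one (by positivity)]
        linarith
      linarith
    rw [pow_succ]
    calc (1 - 1 / (16 * (d : ℝ))) * cut G w f ≤
        (1 - 1 / (16 * (d : ℝ))) * ((1 - 1 / (16 * d)) ^ n * total G w) :=
          mul_le_mul_of_nonneg_left hc h1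
      _ = (1 - 1 / (16 * (d : ℝ))) ^ n * (1 - 1 / (16 * d)) * total G w := by ring

/-- Hyperfiniteness: a graph with maximum degree `≤ Δ` all of whose minors `H` have at most `d |H|`
edges can be cut into connected clusters with at most `s(d, Δ, δ)` vertices, such that the weight of
the edges between different clusters is at most `δ` times the total weight. -/
theorem hyperfinite (d Δ : ℕ) (hd : 1 ≤ d) (δ : ℝ) (hδ : 0 < δ) : ∃ s : ℕ, ∀ (V : Type) [Fintype V]
    (G : SimpleGraph V), SparseMinors d G → (∀ v, (univ.filter fun u => G.Adj v u).card ≤ Δ) →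
    ∀ w : V → V → ℝ, (∀ u v, 0 ≤ w u v) → (∀ u v, w u v = w v u) →
    ∃ (ι : Type) (_ : Fintype ι) (f : V → ι),
      (∀ i, (G.induce {v | f v = i}).Connected) ∧
      (∀ i, (univ.filter fun v => f v = i).card ≤ s) ∧
      cut G w f ≤ δ * total G w := by
  have hd' : (1 : ℝ) ≤ d := by exact_mod_cast hd
  have h0 : (0 : ℝ) ≤ 1 - 1 / (16 * d) := by
    have : (1 : ℝ) / (16 * d) ≤ 1 := by
      rw [div_le_one (by positivity)]
      linarith
    linarith
  have h1 : (1 : ℝ) - 1 / (16 * d) < 1 := by
    have : (0 : ℝ) < 1 / (16 * d) := by positivity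
    linarith
  obtain ⟨n, hn⟩ := exists_pow_lt_of_lt_one hδ h1
  obtain ⟨s, hs⟩ := rounds d Δ hd n
  refine ⟨s, fun V _ G hG hΔ w hw0 hws => ?_⟩
  obtain ⟨ι, hι, f, hf, hsz, hc⟩ := hs V G hG hΔ w hw0 hws
  refine ⟨ι, hι, f, hf, hsz, hc.trans ?_⟩
  refine mul_le_mul_of_nonneg_right hn.le ?_
  refine Finset.sum_nonneg fun u _ => Finset.sum_nonneg fun v _ => ?_
  split_ifs
  · exact hw0 u v
  · exact le_rfl

/-- The version for the number of edges (each edge counted twice). -/
theorem hyperfinite_edges (d Δ : ℕ) (hd : 1 ≤ d) (δ : ℝ) (hδ : 0 < δ) :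
    ∃ s : ℕ, ∀ (V : Type) [Fintype V]
    (G : SimpleGraph V), SparseMinors d G → (∀ v, (univ.filter fun u => G.Adj v u).card ≤ Δ) →
    ∃ (ι : Type) (_ : Fintype ι) (f : V → ι),
      (∀ i, (G.induce {v | f v = i}).Connected) ∧
      (∀ i, (univ.filter fun v => f v = i).card ≤ s) ∧
      (((univ : Finset (V × V)).filter fun p => G.Adj p.1 p.2 ∧ f p.1 ≠ f p.2).card : ℝ) ≤
        δ * Fintype.card V := by
  obtain ⟨s, hs⟩ := hyperfinite d Δ hd (δ / (Δ + 1)) (by positivity)
  refine ⟨s, fun V _ G hG hΔ => ?_⟩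
  obtain ⟨ι, hι, f, hf, hsz, hc⟩ := hs V G hG hΔ (fun _ _ => 1) (fun _ _ => zero_le_one)
    (fun _ _ => rfl)
  refine ⟨ι, hι, f, hf, hsz, ?_⟩
  have h1 : (((univ : Finset (V × V)).filter fun p => G.Adj p.1 p.2 ∧ f p.1 ≠ f p.2).card : ℝ) =
      cut G (fun _ _ => 1) f := by
    unfold cut
    rw [Finset.card_filter, Nat.cast_sum, ← Finset.univ_product_univ, Finset.sum_product]
    refine Finset.sum_congr rfl fun u _ => Finset.sum_congr rfl fun v _ => ?_
    simp
  have h2 : total G (fun _ _ => 1) ≤ Δ * Fintype.card V := by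
    unfold total
    have h3 : ∀ u ∈ (univ : Finset V), ∑ v, (if G.Adj u v then (1 : ℝ) else 0) ≤ Δ := by
      intro u _
      rw [← Finset.sum_filter, Finset.sum_const, nsmul_eq_mul, mul_one]
      exact_mod_cast hΔ u
    refine (Finset.sum_le_sum h3).trans (le_of_eq ?_)
    rw [Finset.sum_const, nsmul_eq_mul, Finset.card_univ]
    ring
  rw [h1]
  refine hc.trans ?_
  have h4 : (0 : ℝ) ≤ δ / (Δ + 1) := by positivity
  calc δ / (Δ + 1) * total G (fun _ _ => 1) ≤ δ / (Δ + 1) * (Δ * Fintype.card V) :=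
        mul_le_mul_of_nonneg_left h2 h4
    _ ≤ δ * Fintype.card V := by
        have h5 : δ / (Δ + 1) * (Δ : ℝ) ≤ δ := by
          rw [div_mul_eq_mul_div, div_le_iff₀ (by positivity)]
          nlinarith [hδ]
        have h6 : (0 : ℝ) ≤ Fintype.card V := by positivity
        nlinarith

end Pool.Agent.Helper15.HF
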