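import Mathlib
import Pool.Agent.Helper36.BL.Minor

/-!
# Bounded degree graphs with sparse minors are hyperfinite: iterated star contraction

`hyperfinite`: let every minor `H` of the finite graph `G` have at most `d |H|` edges and let `G`
have maximum degree at most `Δ`. For every `δ > 0` there is `s = s(d, Δ, δ)` such that for every
symmetric nonnegative weight `w` of the edges there is a partition of the vertices into connected
clusters with at most `s` vertices, such that the total weight of the edges between different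
clusters is at most `δ` times the total weight.
-/

set_option autoImplicit false

namespace Pool.Agent.Helper15.HF

open SimpleGraph Finset Pool.Agent.Helper36.BL
open scoped Classical

/-- Total weight of the ordered pairs of adjacent vertices which lie in different clusters (the
clusters are the fibres of `f`). -/
noncomputable def cut {V ι : Type} [Fintype V] (G : SimpleGraph V) (w : V → V → ℝ) (f : V → ι) :
    ℝ :=
  ∑ u, ∑ v, if G.Adj u v ∧ f u ≠ f v then w u v else 0

/-- Total weight of the edges, counted twice. -/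
noncomputable def total {V : Type} [Fintype V] (G : SimpleGraph V) (w : V → V → ℝ) : ℝ :=
  ∑ u, ∑ v, if G.Adj u v then w u v else 0

/-- Total weight of the adjacent pairs between the clusters `i` and `j`. -/
noncomputable def between {V ι : Type} [Fintype V] (G : SimpleGraph V) (w : V → V → ℝ)
    (f : V → ι) (i j : ι) : ℝ :=
  ∑ u, ∑ v, if (G.Adj u v ∧ f u ≠ f v) ∧ f u = i ∧ f v = j then w u v else 0

/-- The quotient graph. -/
def quot {V ι : Type} (G : SimpleGraph V) (f : V → ι) : SimpleGraph ι where
  Adj i j := i ≠ j ∧ ∃ u v, G.Adj u v ∧ f u = i ∧ f v = j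
  symm := ⟨by
    rintro i j ⟨h, u, v, huv, hu, hv⟩
    exact ⟨h.symm, v, u, huv.symm, hv, hu⟩⟩
  loopless := ⟨fun i h => h.1 rfl⟩

/-- Every minor of `G` has at most `d` edges per vertex. -/
def SparseMinors (d : ℕ) {V : Type} (G : SimpleGraph V) : Prop :=
  ∀ (W : Type) [Fintype W] (H : SimpleGraph W), IsMinor H G →
    Nat.card H.edgeSet ≤ d * Fintype.card W

section Degenerate

variable {ι : Type}

/-- Degeneracy: the total weight is at most `2 D` times the sum of the largest weights. -/
lemma degen_sum (Q : SimpleGraph ι) (F : ι → ι → ℝ) (M : ι → ℝ) (D : ℕ)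
    (hF0 : ∀ i j, ¬ Q.Adj i j → F i j = 0) (hFs : ∀ i j, F i j = F j i)
    (hM : ∀ i j, F i j ≤ M i) (hM0 : ∀ i, 0 ≤ M i)
    (hdeg : ∀ S : Finset ι, S.Nonempty → ∃ i ∈ S, (S.filter (fun j => Q.Adj i j)).card ≤ D)
    (S : Finset ι) :
    ∑ i ∈ S, ∑ j ∈ S, F i j ≤ 2 * D * ∑ i ∈ S, M i := by
  induction S using Finset.strongInduction with
  | H S ih =>
    rcases S.eq_empty_or_nonempty with rfl | hne
    · simp
    obtain ⟨i, hi, hc⟩ := hdeg S hne
    have hT := ih (S.erase i) (Finset.erase_ssubset hi)
    have hins : insert i (S.erase i) = S := Finset.insert_erase hi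
    have hni : i ∉ S.erase i := Finset.notMem_erase i S
    have h1 : ∑ j ∈ S.erase i, F i j ≤ D * M i := by
      have h2 : ∑ j ∈ S.erase i, F i j = ∑ j ∈ (S.erase i).filter (fun j => Q.Adj i j), F i j := by
        rw [Finset.sum_filter]
        refine Finset.sum_congr rfl fun j _ => ?_
        split_ifs with h
        · rfl
        · exact hF0 i j h
      rw [h2]
      have h3 : ∑ j ∈ (S.erase i).filter (fun j => Q.Adj i j), F i j ≤
          ((S.erase i).filter (fun j => Q.Adj i j)).card • M i :=
        Finset.sum_le_card_nsmul _ _ _ fun j _ => hM i j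
      refine h3.trans ?_
      rw [nsmul_eq_mul]
      refine mul_le_mul_of_nonneg_right ?_ (hM0 i)
      have : ((S.erase i).filter (fun j => Q.Adj i j)).card ≤ D :=
        (Finset.card_le_card (Finset.filter_subset_filter _ (Finset.erase_subset i S))).trans hc
      exact_mod_cast this
    have hii : F i i = 0 := hF0 i i (Q.loopless.irrefl i)
    have e1 : ∑ a ∈ S, ∑ b ∈ S, F a b =
        ∑ a ∈ S.erase i, ∑ b ∈ S.erase i, F a b + 2 * ∑ b ∈ S.erase i, F i b := by
      conv_lhs => rw [← hins]
      rw [Finset.sum_insert hni, Finset.sum_insert hni, hii]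
      have : ∑ a ∈ S.erase i, ∑ b ∈ insert i (S.erase i), F a b =
          ∑ a ∈ S.erase i, F i a + ∑ a ∈ S.erase i, ∑ b ∈ S.erase i, F a b := by
        rw [← Finset.sum_add_distrib]
        refine Finset.sum_congr rfl fun a _ => ?_
        rw [Finset.sum_insert hni, hFs a i]
      rw [this]; ring
    have e2 : ∑ a ∈ S, M a = M i + ∑ a ∈ S.erase i, M a := by
      conv_lhs => rw [← hins]
      rw [Finset.sum_insert hni]
    rw [e1, e2]
    nlinarith

/-- A random set of clusters contains `i` and not `j i` with probability `1 / 4`. -/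
lemma exists_colour [Fintype ι] (j : ι → ι) (m : ι → ℝ) (h : ∀ i, j i = i → m i = 0) :
    ∃ S : Finset ι, (1 / 4 : ℝ) * ∑ i, m i ≤ ∑ i, if i ∈ S ∧ j i ∉ S then m i else 0 := by
  have hcard : ∀ a b : ι, a ≠ b →
      4 * ((univ : Finset (Finset ι)).filter fun S => a ∈ S ∧ b ∉ S).card =
        (univ : Finset (Finset ι)).card := by
    intro a b hab
    have h1 : ((univ : Finset (Finset ι)).filter fun S => a ∈ S ∧ b ∉ S).card =
        (((univ : Finset ι).erase a).erase b).powerset.card := by
      refine Finset.card_nbij' (fun S => S.erase a) (fun T => insert a T) ?_ ?_ ?_ ?_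
      · intro S hS
        simp only [Finset.coe_filter, Finset.mem_univ, true_and, Set.mem_ofPred_eq] at hS
        simp only [Finset.coe_powerset, Set.mem_preimage, Set.mem_powerset_iff,
          Finset.coe_subset]
        intro x hx
        rw [Finset.mem_erase] at hx
        rw [Finset.mem_erase, Finset.mem_erase]
        exact ⟨fun hxb => hS.2 (hxb ▸ hx.2), hx.1, Finset.mem_univ x⟩
      · intro T hT
        simp only [Finset.coe_powerset, Set.mem_preimage, Set.mem_powerset_iff,
          Finset.coe_subset] at hT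
        simp only [Finset.coe_filter, Finset.mem_univ, true_and, Set.mem_ofPred_eq]
        refine ⟨Finset.mem_insert_self a T, fun hb => ?_⟩
        rcases Finset.mem_insert.mp hb with hb | hb
        · exact hab hb.symm
        · exact (Finset.mem_erase.mp (hT hb)).1 rfl
      · intro S hS
        simp only [Finset.coe_filter, Finset.mem_univ, true_and, Set.mem_ofPred_eq] at hS
        exact Finset.insert_erase hS.1
      · intro T hT
        simp only [Finset.coe_powerset, Set.mem_preimage, Set.mem_powerset_iff,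
          Finset.coe_subset] at hT
        refine Finset.erase_insert fun ha => ?_
        exact (Finset.mem_erase.mp (Finset.mem_erase.mp (hT ha)).2).1 rfl
    rw [h1, Finset.card_powerset, Finset.card_erase_of_mem, Finset.card_erase_of_mem (mem_univ a)]
    · have h2 : 2 ≤ Fintype.card ι := by
        have : ({a, b} : Finset ι).card ≤ Fintype.card ι := Finset.card_le_univ _
        rwa [Finset.card_pair hab] at this
      rw [Finset.card_univ, Finset.card_univ, Fintype.card_finset]
      obtain ⟨k, hk⟩ := Nat.exists_eq_add_of_le h2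
      rw [hk, show 2 + k - 1 - 1 = k by omega, pow_add]; norm_num
    · exact Finset.mem_erase.mpr ⟨hab.symm, Finset.mem_univ b⟩
  by_contra hcon
  push Not at hcon
  have hsum : ∑ S : Finset ι, ∑ i, (if i ∈ S ∧ j i ∉ S then m i else 0) <
      ∑ _S : Finset ι, (1 / 4 : ℝ) * ∑ i, m i :=
    Finset.sum_lt_sum_of_nonempty ⟨∅, Finset.mem_univ _⟩ fun S _ => hcon S
  rw [Finset.sum_comm] at hsum
  have e1 : ∀ i, ∑ S : Finset ι, (if i ∈ S ∧ j i ∉ S then m i else 0) =
      (1 / 4 : ℝ) * ((univ : Finset (Finset ι)).card : ℝ) * m i := by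
    intro i
    by_cases hij : j i = i
    · rw [h i hij]; simp
    · rw [← Finset.sum_filter, Finset.sum_const, nsmul_eq_mul]
      have := hcard i (j i) (Ne.symm hij)
      have h3 : (4 : ℝ) * (((univ : Finset (Finset ι)).filter fun S => i ∈ S ∧ j i ∉ S).card : ℝ) =
          ((univ : Finset (Finset ι)).card : ℝ) := by exact_mod_cast this
      rw [← h3]; ring
  rw [Finset.sum_congr rfl fun i _ => e1 i, ← Finset.mul_sum, Finset.sum_const, nsmul_eq_mul]
    at hsum
  linarith

end Degenerate

section Quotient

variable {V ι : Type} [Fintype V]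

omit [Fintype V] in
lemma isMinor_quot (G : SimpleGraph V) (f : V → ι)
    (hf : ∀ i, (G.induce {v | f v = i}).Connected) (S : Set ι) :
    IsMinor ((quot G f).induce S) G := by
  refine ⟨fun i => {v | f v = i}, fun i => hf i, ?_, ?_⟩
  · intro i j hij
    rw [Set.disjoint_left]
    intro v hv hv'
    exact hij (Subtype.ext (hv.symm.trans hv'))
  · rintro i j ⟨_, u, v, huv, hu, hv⟩
    exact ⟨u, hu, v, hv, huv⟩

omit [Fintype V] in
/-- Every set of clusters contains a cluster with few neighbours in the set. -/
lemma exists_low_degree [Fintype ι] {d : ℕ} (G : SimpleGraph V) (hG : SparseMinors d G) (f : V → ι)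
    (hf : ∀ i, (G.induce {v | f v = i}).Connected) (S : Finset ι) (hS : S.Nonempty) :
    ∃ i ∈ S, (S.filter (fun j => (quot G f).Adj i j)).card ≤ 2 * d := by
  by_contra hcon
  push Not at hcon
  set H : SimpleGraph (S : Set ι) := (quot G f).induce (S : Set ι) with hH
  have h1 := hG (S : Set ι) H (isMinor_quot G f hf S)
  have h2 : ∑ x : (S : Set ι), H.degree x = 2 * #H.edgeFinset := H.sum_degrees_eq_twice_card_edges
  have h3 : Nat.card H.edgeSet = #H.edgeFinset := by
    rw [Nat.card_eq_fintype_card, SimpleGraph.edgeFinset_card]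
  have h4 : ∀ x : (S : Set ι), 2 * d + 1 ≤ H.degree x := by
    rintro ⟨x, hx⟩
    have h5 := hcon x hx
    refine le_trans h5 ?_
    have h6 : S.filter (fun j => (quot G f).Adj x j) ⊆
        (H.neighborFinset ⟨x, hx⟩).image Subtype.val := by
      intro y hy
      rw [Finset.mem_filter] at hy
      rw [Finset.mem_image]
      refine ⟨⟨y, hy.1⟩, ?_, rfl⟩
      rw [SimpleGraph.mem_neighborFinset]
      exact hy.2
    exact (Finset.card_le_card h6).trans (Finset.card_image_le.trans (le_of_eq (by simp)))
  have h7 : ∑ _x : (S : Set ι), (2 * d + 1) ≤ ∑ x : (S : Set ι), H.degree x :=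
    Finset.sum_le_sum fun x _ => h4 x
  rw [Finset.sum_const, smul_eq_mul, Finset.card_univ] at h7
  have h8 : Fintype.card (S : Set ι) = #S := by simp
  rw [h8] at h7 h1
  have h9 : 0 < #S := Finset.card_pos.mpr hS
  rw [h2, ← h3] at h7
  nlinarith

variable (G : SimpleGraph V) (w : V → V → ℝ) (f : V → ι)

lemma between_nonneg (hw : ∀ u v, 0 ≤ w u v) (i j : ι) : 0 ≤ between G w f i j := by
  refine Finset.sum_nonneg fun u _ => Finset.sum_nonneg fun v _ => ?_
  split_ifs
  · exact hw u v
  · exact le_rfl

lemma between_symm (hw : ∀ u v, w u v = w v u) (i j : ι) :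
    between G w f i j = between G w f j i := by
  unfold between
  rw [Finset.sum_comm]
  refine Finset.sum_congr rfl fun u _ => Finset.sum_congr rfl fun v _ => ?_
  rw [hw v u]
  congr 1
  rw [eq_iff_iff]
  constructor
  · rintro ⟨⟨h1, h2⟩, h3, h4⟩
    exact ⟨⟨h1.symm, h2.symm⟩, h4, h3⟩
  · rintro ⟨⟨h1, h2⟩, h3, h4⟩
    exact ⟨⟨h1.symm, h2.symm⟩, h4, h3⟩

lemma between_eq_zero (i j : ι) (h : ¬ (quot G f).Adj i j) : between G w f i j = 0 := by
  refine Finset.sum_eq_zero fun u _ => Finset.sum_eq_zero fun v _ => ?_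
  rw [if_neg]
  rintro ⟨⟨h1, h2⟩, h3, h4⟩
  exact h ⟨fun hij => h2 (by rw [h3, h4, hij]), u, v, h1, h3, h4⟩

lemma cut_eq [Fintype ι] : cut G w f = ∑ i, ∑ j, between G w f i j := by
  unfold cut between
  have h1 : ∀ i j : ι, ∑ u, ∑ v, (if (G.Adj u v ∧ f u ≠ f v) ∧ f u = i ∧ f v = j then w u v else 0)
      = ∑ u, ∑ v, if f u = i then (if f v = j then (if G.Adj u v ∧ f u ≠ f v then w u v else 0)
        else 0) else 0 := by
    intro i j
    refine Finset.sum_congr rfl fun u _ => Finset.sum_congr rfl fun v _ => ?_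
    by_cases h1 : G.Adj u v ∧ f u ≠ f v <;> by_cases h2 : f u = i <;> by_cases h3 : f v = j <;>
      simp [h1, h2, h3]
  simp_rw [h1]
  have h2 : ∀ i : ι, ∑ j : ι, ∑ u, ∑ v, (if f u = i then (if f v = j then
      (if G.Adj u v ∧ f u ≠ f v then w u v else 0) else 0) else 0) =
      ∑ u, ∑ v, (if f u = i then (if G.Adj u v ∧ f u ≠ f v then w u v else 0) else 0) := by
    intro i
    rw [Finset.sum_comm]
    refine Finset.sum_congr rfl fun u _ => ?_
    rw [Finset.sum_comm]
    refine Finset.sum_congr rfl fun v _ => ?_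
    by_cases h : f u = i
    · simp only [h, if_true]
      rw [Finset.sum_ite_eq]; simp
    · simp [h]
  simp_rw [h2]
  symm
  rw [Finset.sum_comm]
  refine Finset.sum_congr rfl fun u _ => ?_
  rw [Finset.sum_comm]
  refine Finset.sum_congr rfl fun v _ => ?_
  rw [Finset.sum_ite_eq]; simp

/-- Contraction along an idempotent map of the clusters. -/
lemma cut_contract [Fintype ι] (hw : ∀ u v, 0 ≤ w u v) (g : ι → ι) (hg : ∀ i, g (g i) = g i) :
    cut G w (fun v => g (f v)) + ∑ i, (if g i ≠ i then between G w f i (g i) else 0) ≤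
      cut G w f := by
  have h1 : ∑ i, (if g i ≠ i then between G w f i (g i) else 0) =
      ∑ u, ∑ v, if (G.Adj u v ∧ f u ≠ f v) ∧ g (f u) ≠ f u ∧ f v = g (f u) then w u v else 0 := by
    unfold between
    have h2 : ∀ i : ι, (if g i ≠ i then ∑ u, ∑ v, (if (G.Adj u v ∧ f u ≠ f v) ∧ f u = i ∧ f v = g i
        then w u v else 0) else 0) = ∑ u, ∑ v, (if f u = i then (if (G.Adj u v ∧ f u ≠ f v) ∧
          g (f u) ≠ f u ∧ f v = g (f u) then w u v else 0) else 0) := by
      intro i
      by_cases hi : g i ≠ i
      · rw [if_pos hi]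
        refine Finset.sum_congr rfl fun u _ => Finset.sum_congr rfl fun v _ => ?_
        by_cases h3 : f u = i
        · rw [h3]; simp [hi]
        · simp [h3]
      · rw [if_neg hi]
        symm
        refine Finset.sum_eq_zero fun u _ => Finset.sum_eq_zero fun v _ => ?_
        by_cases h3 : f u = i
        · rw [if_pos h3, if_neg]
          rintro ⟨_, h4, _⟩
          rw [h3] at h4
          exact hi h4
        · rw [if_neg h3]
    rw [Finset.sum_congr rfl fun i _ => h2 i, Finset.sum_comm]
    refine Finset.sum_congr rfl fun u _ => ?_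
    rw [Finset.sum_comm]
    refine Finset.sum_congr rfl fun v _ => ?_
    rw [Finset.sum_ite_eq]; simp
  rw [h1]
  unfold cut
  rw [← Finset.sum_add_distrib]
  refine Finset.sum_le_sum fun u _ => ?_
  rw [← Finset.sum_add_distrib]
  refine Finset.sum_le_sum fun v _ => ?_
  by_cases h2 : (G.Adj u v ∧ f u ≠ f v) ∧ g (f u) ≠ f u ∧ f v = g (f u)
  · have h3 : ¬ (G.Adj u v ∧ g (f u) ≠ g (f v)) := by
      rintro ⟨_, h4⟩
      rw [h2.2.2, hg] at h4
      exact h4 rfl
    rw [if_pos h2, if_neg h3, if_pos h2.1, zero_add]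
  · rw [if_neg h2, add_zero]
    by_cases h3 : G.Adj u v ∧ g (f u) ≠ g (f v)
    · rw [if_pos h3, if_pos ⟨h3.1, fun h4 => h3.2 (by rw [h4])⟩]
    · rw [if_neg h3]
      split_ifs
      · exact hw u v
      · exact le_rfl

end Quotient

end Pool.Agent.Helper15.HF
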